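import Mathlib
import Pool.Agent.H67.FTDefs
import Pool.Agent.H67.FT2
import Pool.Agent.H67.FT3

open Pool.Agent.H67.FT Pointwise

theorem Pool.Agent.Results.MP_5cf805_al.DegreeIdl.result
    {F V : Type*} [Field F] [AddCommGroup V] [Module F V] (hV : ¬ Module.Finite F V)
    (S : Set (Submodule F V)) (hS : Maximal IsIdl S) (k : ℕ) :
    MulAction.IsMultiplyPretransitive (V ≃ₗ[F] V) (MulAction.orbit (V ≃ₗ[F] V) S) k ↔ k ≤ 2 := by
  have hV' : Cardinal.aleph0 ≤ Module.rank F V := by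
    rwa [← not_lt, Module.rank_lt_aleph0_iff]
  exact idl_result hV' (MI_of_max hS) k
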